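import Pool.Agent.Helper79.BM.Stat
import Pool.Agent.Helper79.SG.Main

set_option autoImplicit false

/-!
# MP_ad201b_nt: comparison of the statement with the definitions used in the proof
-/

open MvPolynomial IntermediateField NumberField IsDedekindDomain
open scoped TensorProduct

namespace Pool.Agent.BM

open Pool.Agent.Helper8.BR

variable {k : Type} [Field k] {Ω : Type} [Field Ω] [Algebra k Ω] {n : ℕ} {ξ : Fin (n + 1) → Ω}

theorem funField_eq : funField k ξ = SB.funField k ξ := rfl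

theorem coordRing_eq (e : ℕ) (g : MvPolynomial (Fin (n + 1)) k) :
    coordRing k ξ e g = SB.coordRing k ξ e g := rfl

theorem etCover_eq (e : ℕ) (g : MvPolynomial (Fin (n + 1)) k) :
    etCover k ξ e g = SB.etCover k ξ e g := rfl

theorem onX_iff {E : Type} [Field E] [Algebra k E] (x : Fin (n + 1) → E) :
    OnX k ξ x ↔ SB.OnX k ξ x := Iff.rfl

theorem splitting (h : SplittingCondition k ξ) : SB.SplittingCondition k ξ := by
  intro e g he hg hne hn
  obtain ⟨s, hs, hl⟩ := h e g he hg hne hn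
  exact ⟨s, hs, fun γ θ hθ => hl γ θ ⟨(θ : Ω), hθ⟩ rfl⟩

/-- the class in the notation of the proof -/
def BrClass.toSB (α : BrClass k ξ) : SB.BrClass k ξ where
  N := α.N
  e i := (α.loc i).e
  g i := (α.loc i).g
  e_pos i := (α.loc i).e_pos
  hom i := (α.loc i).hom
  ne i := (α.loc i).ne
  cover := α.cover
  A i := (α.loc i).A
  ring i := (α.loc i).ring
  algebra i := (α.loc i).algebra
  azumaya i := (α.loc i).azumaya
  same i j φ ψ hφ hψ := α.same i j φ ψ hφ hψ

theorem valueIs (α : BrClass k ξ) {E : Type} [Field E] [Algebra k E] (x : Fin (n + 1) → E)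
    (B : Type) [Ring B] [Algebra k B] (h : SB.ValueIs k α.toSB x B) : ValueIs k α x B := by
  intro i hx φ hφ
  exact h i hx φ ⟨hφ.1, fun f hf hm => hφ.2 f ⟨_, hm⟩ hf rfl⟩

theorem main (k : Type) [Field k] [NumberField k] (Ω : Type) [Field Ω] [Algebra k Ω]
    [IsAlgClosed Ω] {n : ℕ} (ξ : Fin (n + 1) → Ω) (hξ : ξ ≠ 0)
    [Algebra.IsAlgebraic (funField k ξ) Ω] (hsplit : SplittingCondition k ξ) :
    ∃ (P : ∀ v : HeightOneSpectrum (𝓞 k), Fin (n + 1) → v.adicCompletion k)
      (Q : ∀ w : InfinitePlace k, Fin (n + 1) → w.Completion),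
      (∀ v, OnX k ξ (P v)) ∧ (∀ w, OnX k ξ (Q w)) ∧
      ∀ α : BrClass k ξ, ∃ (B : Type) (_ : Ring B) (_ : Algebra k B), IsAzumaya k B ∧
        (∀ v, ValueIs k α (P v) B) ∧ ∀ w, ValueIs k α (Q w) B := by
  have halg : Algebra.IsAlgebraic (SB.funField k ξ) Ω := ‹Algebra.IsAlgebraic (funField k ξ) Ω›
  obtain ⟨P, Q, hP, hQ, h⟩ := SB.main k Ω ξ hξ (splitting hsplit)
  refine ⟨P, Q, hP, hQ, fun α => ?_⟩
  obtain ⟨B, iR, iA, hB, h1, h2⟩ := h α.toSB
  exact ⟨B, iR, iA, hB, fun v => valueIs α (P v) B (h1 v), fun w => valueIs α (Q w) B (h2 w)⟩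

end Pool.Agent.BM
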