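import Pool.Agent.Helper8.BR.Defs

set_option autoImplicit false

/-!
# MP_ad201b_nt: the statement

`k` is a field (a number field in the theorem), `Ω` an algebraically closed field containing `k`.
A projective variety `X` in projective space of dimension `n` over `k` is given by homogeneous
coordinates `ξ` of its generic point with values in `Ω`; `Ω` is an algebraic closure of the
function field `K` of `X`, generated over `k` by the `ξ i / ξ j`.
-/

open MvPolynomial IntermediateField
open scoped TensorProduct

namespace Pool.Agent.BM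

open Pool.Agent.Helper8.BR

section general

/-- the value of the polynomial `f` at `x` -/
noncomputable def ev {k : Type} [Field k] {n : ℕ} {E : Type} [Field E] [Algebra k E]
    (x : Fin (n + 1) → E) (f : MvPolynomial (Fin (n + 1)) k) : E := aeval x f

/-- the elements of `Ω` that lie in the image of a finite étale algebra over the ring `R` -/
def etSet (R Ω : Type) [CommRing R] [Field Ω] [Algebra R Ω] : Set Ω :=
  {θ | ∃ (S : Type) (_ : CommRing S) (_ : Algebra R S), Module.Finite R S ∧
    Algebra.Etale R S ∧ ∃ φ : S →ₐ[R] Ω, θ ∈ Set.range φ}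

/-- `W` and `E` are subfields of `Ω`: the automorphism `s γ` of `E` acts as `γ` on the elements
of `E` in `W`, that is, `s γ` is mapped to `γ` by the projection from `Gal(E/K)` to `Gal(W/k)` -/
def Lifts {k W K E : Type} (Ω : Type) [Field k] [Field W] [Field K] [Field E] [Field Ω]
    [Algebra k W] [Algebra K E] [Algebra W Ω] [Algebra E Ω]
    (s : (W ≃ₐ[k] W) → (E ≃ₐ[K] E)) : Prop :=
  ∀ (γ : W ≃ₐ[k] W) (θ : W) (η : E), algebraMap E Ω η = algebraMap W Ω θ →
    algebraMap E Ω (s γ η) = algebraMap W Ω (γ θ)

/-- there is a continuous homomorphism `s` from `G` to `H` with the property `P` -/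
def HasContHom (G H : Type) [Group G] [TopologicalSpace G] [Group H] [TopologicalSpace H]
    (P : (G → H) → Prop) : Prop :=
  ∃ s : G →* H, Continuous s ∧ P s

/-- the projection from `Gal(E/K)` to `Gal(W/k)`, `W` and `E` subfields of `Ω`, has a continuous
splitting (Krull topologies) -/
def HasSplitting (k W K E Ω : Type) [Field k] [Field W] [Field K] [Field E] [Field Ω]
    [Algebra k W] [Algebra K E] [Algebra W Ω] [Algebra E Ω] : Prop :=
  HasContHom (W ≃ₐ[k] W) (E ≃ₐ[K] E) (Lifts Ω)

/-- the projection from `Gal(E/K)` to the absolute Galois group of `k` has a continuous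
splitting; the algebraic closure of `k` is taken in `Ω` -/
def Splits (k K Ω : Type) [Field k] [Field K] [Field Ω] [Algebra k Ω] [Algebra K Ω]
    (E : IntermediateField K Ω) : Prop :=
  HasSplitting k (algebraicClosure k Ω) K E Ω

/-- base change of an `R`-algebra along a ring homomorphism `R → E` -/
abbrev BC {R E : Type} [CommRing R] [CommRing E] (φ : R →+* E) (A : Type) [Ring A]
    [Algebra R A] : Type :=
  @TensorProduct R _ E A _ _ φ.toAlgebra.toModule _

/-- the algebras `A` and `A'` over the subrings `R` and `R'` of the subfield `K` of `Ω` become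
Brauer equivalent over `K` -/
def SameGeneric (K Ω R R' : Type) [Field K] [Field Ω] [CommRing R] [CommRing R'] [Algebra K Ω]
    [Algebra R Ω] [Algebra R' Ω] (A A' : Type) [Ring A] [Ring A'] [Algebra R A]
    [Algebra R' A'] : Prop :=
  ∀ (φ : R →+* K) (ψ : R' →+* K), (∀ z, algebraMap K Ω (φ z) = algebraMap R Ω z) →
    (∀ z, algebraMap K Ω (ψ z) = algebraMap R' Ω z) → BrEq K (BC φ A) (BC ψ A')

/-- the homomorphism `φ` from the coordinate ring `R` of `g ≠ 0` is evaluation at the point `x`:
it is `k`-linear and maps `f / g` to the quotient of the values of `f` and `g` at `x`, for all `f`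
homogeneous of degree `e = deg g` -/
def IsEval {k Ω R E : Type} [Field k] [Field Ω] [CommRing R] [Field E] [Algebra k Ω]
    [Algebra k R] [Algebra R Ω] [Algebra k E] {n : ℕ} (ξ : Fin (n + 1) → Ω) (e : ℕ)
    (g : MvPolynomial (Fin (n + 1)) k) (x : Fin (n + 1) → E) (φ : R →+* E) : Prop :=
  (∀ a : k, φ (algebraMap k R a) = algebraMap k E a) ∧
  ∀ (f : MvPolynomial (Fin (n + 1)) k) (z : R), f.IsHomogeneous e →
    algebraMap R Ω z = ev ξ f / ev ξ g → φ z = ev x f / ev x g

/-- if `g ≠ 0` at the point `x` with values in `E`, then the value at `x` of the algebra `A` over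
the coordinate ring `R` of `g ≠ 0` is Brauer equivalent to `E ⊗ B` -/
def ValueEq {k Ω E : Type} [Field k] [Field Ω] [Field E] [Algebra k Ω] [Algebra k E] {n : ℕ}
    (ξ : Fin (n + 1) → Ω) (e : ℕ) (g : MvPolynomial (Fin (n + 1)) k) (R A : Type) [CommRing R]
    [Algebra k R] [Algebra R Ω] [Ring A] [Algebra R A] (x : Fin (n + 1) → E) (B : Type) [Ring B]
    [Algebra k B] : Prop :=
  ev x g ≠ 0 → ∀ φ : R →+* E, IsEval ξ e g x φ → BrEq E (BC φ A) (E ⊗[k] B)

end general

section geometry

variable (k : Type) [Field k] {Ω : Type} [Field Ω] [Algebra k Ω] {n : ℕ}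

/-- `x` are homogeneous coordinates of a point, with values in the extension `E` of `k`, of the
projective variety with generic point `ξ` -/
def OnX (ξ : Fin (n + 1) → Ω) {E : Type} [Field E] [Algebra k E] (x : Fin (n + 1) → E) : Prop :=
  x ≠ 0 ∧ ∀ (e : ℕ) (f : MvPolynomial (Fin (n + 1)) k), f.IsHomogeneous e →
    ev ξ f = 0 → ev x f = 0

/-- the function field `K` of `X` -/
def funField (ξ : Fin (n + 1) → Ω) : IntermediateField k Ω :=
  adjoin k {z | ∃ i j, z = ξ i / ξ j}

/-- the coordinate ring of the affine open set `g ≠ 0` of `X`, `g` homogeneous of degree `e` -/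
def coordRing (ξ : Fin (n + 1) → Ω) (e : ℕ) (g : MvPolynomial (Fin (n + 1)) k) :
    Subalgebra k Ω :=
  Algebra.adjoin k {z | ∃ f : MvPolynomial (Fin (n + 1)) k, f.IsHomogeneous e ∧
    z = ev ξ f / ev ξ g}

/-- the compositum `K_U` of all connected finite étale covers of the affine open set
`U : g ≠ 0`; for `U` normal the étale fundamental group of `U` is `Gal(K_U/K)` -/
def etCover (ξ : Fin (n + 1) → Ω) (e : ℕ) (g : MvPolynomial (Fin (n + 1)) k) :
    IntermediateField (funField k ξ) Ω :=
  adjoin (funField k ξ) (etSet (coordRing k ξ e g) Ω)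

/-- the splitting condition: for every nonempty normal affine open set `U : g ≠ 0` of `X`, `g`
homogeneous of positive degree, the projection from the étale fundamental group `Gal(K_U/K)` of
`U` to the absolute Galois group of `k` has a continuous splitting -/
def SplittingCondition (ξ : Fin (n + 1) → Ω) : Prop :=
  ∀ (e : ℕ) (g : MvPolynomial (Fin (n + 1)) k), 0 < e → g.IsHomogeneous e → ev ξ g ≠ 0 →
    IsIntegrallyClosed (coordRing k ξ e g) →
    Splits k (funField k ξ) Ω (etCover k ξ e g)

/-- an Azumaya algebra on the nonempty affine open set `g ≠ 0` of `X`, `g` homogeneous of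
degree `e > 0` -/
structure LocAz (ξ : Fin (n + 1) → Ω) where
  /-- the degree of the form -/
  e : ℕ
  /-- the form defining the open set -/
  g : MvPolynomial (Fin (n + 1)) k
  e_pos : 0 < e
  hom : g.IsHomogeneous e
  ne : ev ξ g ≠ 0
  /-- the algebra -/
  A : Type
  [ring : Ring A]
  [algebra : Algebra (coordRing k ξ e g) A]
  azumaya : IsAzumaya (coordRing k ξ e g) A

attribute [instance] LocAz.ring LocAz.algebra

/-- a class in the Brauer group of `X`, represented by Azumaya algebras on the members of a
finite affine open cover with Brauer equivalent generic fibres -/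
structure BrClass (ξ : Fin (n + 1) → Ω) where
  /-- the number of open sets -/
  N : ℕ
  /-- the Azumaya algebras on the open sets -/
  loc : Fin N → LocAz k ξ
  cover : ∀ x : Fin (n + 1) → Ω, OnX k ξ x → ∃ i, ev x (loc i).g ≠ 0
  same : ∀ i j, SameGeneric (funField k ξ) Ω (coordRing k ξ (loc i).e (loc i).g)
    (coordRing k ξ (loc j).e (loc j).g) (loc i).A (loc j).A

/-- the value of the class `α` at the point `x` over the extension `E` of `k` is the class of
`E ⊗ B` -/
def ValueIs {ξ : Fin (n + 1) → Ω} (α : BrClass k ξ) {E : Type} [Field E] [Algebra k E]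
    (x : Fin (n + 1) → E) (B : Type) [Ring B] [Algebra k B] : Prop :=
  ∀ i, ValueEq ξ (α.loc i).e (α.loc i).g (coordRing k ξ (α.loc i).e (α.loc i).g) (α.loc i).A x B

end geometry

end Pool.Agent.BM
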